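import Pool.Agent.W763.PB.Stm

/-!
# Project PB, part Fd: `T` is not similar to a unitary
-/

set_option autoImplicit false

open MeasureTheory Filter Topology
open scoped InnerProductSpace BoundedContinuousFunction

namespace Pool.Agent.W19.PB

open Pool.Agent.W763.PB

theorem fd : S_Fd := by
  intro H _ _ _ U D hx T W hT hW
  rintro ⟨S, hS⟩
  obtain ⟨N, hN⟩ := exists_nat_ge (‖(S.symm : lp H 2 →L[ℂ] lp H 2)‖ * ‖(S : lp H 2 →L[ℂ] lp H 2)‖)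
  obtain ⟨x, hxN⟩ := hx N
  have hTv : T (lp.single 2 N (D N ((U N).symm x))) = lp.single 2 N (D N x) := by
    ext M
    rw [hT]
    by_cases h : M = N
    · subst h
      rw [lp.coeFn_single, lp.coeFn_single, Pi.single_eq_same, Pi.single_eq_same,
        ContinuousLinearEquiv.symm_apply_apply, LinearIsometryEquiv.apply_symm_apply]
    · rw [lp.coeFn_single, lp.coeFn_single, Pi.single_eq_of_ne h, Pi.single_eq_of_ne h, map_zero,
        map_zero, map_zero]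
  have hW1 : ∀ z : lp H 2, ‖W z‖ = ‖z‖ := fun z =>
    ContinuousLinearMap.norm_map_of_mem_unitary hW z
  obtain ⟨v, hv⟩ : ∃ v : lp H 2, v = lp.single 2 N (D N ((U N).symm x)) := ⟨_, rfl⟩
  rw [← hv] at hTv
  have h1 : ‖v‖ ≤ ‖(S.symm : lp H 2 →L[ℂ] lp H 2)‖ * ‖S v‖ := by
    have h2 := (S.symm : lp H 2 →L[ℂ] lp H 2).le_opNorm (S v)
    simpa using h2
  have h3 : ‖S v‖ = ‖S (T v)‖ := by rw [hS, hW1]
  have h4 : ‖S (T v)‖ ≤ ‖(S : lp H 2 →L[ℂ] lp H 2)‖ * ‖T v‖ :=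
    (S : lp H 2 →L[ℂ] lp H 2).le_opNorm (T v)
  have h5 : ‖v‖ ≤ N * ‖T v‖ := by
    calc ‖v‖ ≤ ‖(S.symm : lp H 2 →L[ℂ] lp H 2)‖ * ‖S v‖ := h1
      _ = ‖(S.symm : lp H 2 →L[ℂ] lp H 2)‖ * ‖S (T v)‖ := by rw [h3]
      _ ≤ ‖(S.symm : lp H 2 →L[ℂ] lp H 2)‖ * (‖(S : lp H 2 →L[ℂ] lp H 2)‖ * ‖T v‖) :=
        mul_le_mul_of_nonneg_left h4 (norm_nonneg _)
      _ = (‖(S.symm : lp H 2 →L[ℂ] lp H 2)‖ * ‖(S : lp H 2 →L[ℂ] lp H 2)‖) * ‖T v‖ := by ring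
      _ ≤ _ := mul_le_mul_of_nonneg_right hN (norm_nonneg _)
  rw [hTv, hv, lp.norm_single (by norm_num), lp.norm_single (by norm_num)] at h5
  exact absurd h5 (not_le.2 hxN)

end Pool.Agent.W19.PB
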